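import Mathlib

/-!
# Power sums of seven nonzero elements of a field of characteristic 2

If the power sums of exponents 1, 3, 5, 9 vanish then so does the one of exponent 17.
-/

set_option autoImplicit false

namespace Pool.Agent.G8.H10

open Polynomial

section

variable {F : Type*} [Field F]

/-- The power sum. -/
def ps {n : ℕ} (x : Fin n → F) (k : ℕ) : F := ∑ i, x i ^ k

theorem ps_two_mul [CharP F 2] {n : ℕ} (x : Fin n → F) (k : ℕ) : ps x (2 * k) = ps x k ^ 2 := by
  unfold ps
  rw [sum_pow_char 2]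
  refine Finset.sum_congr rfl fun i _ => ?_
  rw [← pow_mul, mul_comm]

/-- The polynomial with the roots `x i`. -/
noncomputable def rp {n : ℕ} (x : Fin n → F) : F[X] := ∏ i, (X - C (x i))

theorem rp_monic {n : ℕ} (x : Fin n → F) : (rp x).Monic := monic_prod_X_sub_C _ _

theorem rp_natDegree {n : ℕ} (x : Fin n → F) : (rp x).natDegree = n := by
  unfold rp
  rw [natDegree_prod_of_monic _ _ (fun i _ => monic_X_sub_C _)]
  simp

theorem rp_eval {n : ℕ} (x : Fin n → F) (i : Fin n) : (rp x).eval (x i) = 0 := by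
  unfold rp
  rw [eval_prod]
  exact Finset.prod_eq_zero (Finset.mem_univ i) (by simp)

theorem rp_coeff_zero {n : ℕ} (x : Fin n → F) (hx : ∀ i, x i ≠ 0) : (rp x).coeff 0 ≠ 0 := by
  rw [coeff_zero_eq_eval_zero]
  unfold rp
  rw [eval_prod]
  refine Finset.prod_ne_zero_iff.mpr fun i _ => ?_
  simp [hx i]

theorem ps_rec {n : ℕ} (x : Fin n → F) (k : ℕ) :
    ps x (k + n) + ∑ j ∈ Finset.range n, (rp x).coeff j * ps x (k + j) = 0 := by
  have h1 : ∀ i, x i ^ (k + n) + ∑ j ∈ Finset.range n, (rp x).coeff j * x i ^ (k + j) = 0 := by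
    intro i
    have h2 := rp_eval x i
    rw [eval_eq_sum_range, rp_natDegree, Finset.sum_range_succ] at h2
    have h3 : (rp x).coeff n = 1 := by
      have := rp_monic x
      rw [Monic, leadingCoeff, rp_natDegree] at this
      exact this
    rw [h3, one_mul] at h2
    have h4 : x i ^ (k + n) + ∑ j ∈ Finset.range n, (rp x).coeff j * x i ^ (k + j) =
        x i ^ k * (∑ j ∈ Finset.range n, (rp x).coeff j * x i ^ j + x i ^ n) := by
      rw [mul_add, Finset.mul_sum, pow_add, add_comm]
      congr 1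
      refine Finset.sum_congr rfl fun j _ => ?_
      rw [pow_add]
      ring
    rw [h4, h2, mul_zero]
  have h5 : ps x (k + n) + ∑ j ∈ Finset.range n, (rp x).coeff j * ps x (k + j) =
      ∑ i, (x i ^ (k + n) + ∑ j ∈ Finset.range n, (rp x).coeff j * x i ^ (k + j)) := by
    unfold ps
    rw [Finset.sum_add_distrib]
    congr 1
    rw [Finset.sum_comm]
    refine Finset.sum_congr rfl fun j _ => ?_
    rw [Finset.mul_sum]
  rw [h5]
  exact Finset.sum_eq_zero fun i _ => h1 i

/-- **P17** -/
theorem p17 [CharP F 2] (x : Fin 7 → F) (hx : ∀ i, x i ≠ 0) (h1 : ∑ i, x i = 0)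
    (h3 : ∑ i, x i ^ 3 = 0) (h5 : ∑ i, x i ^ 5 = 0) (h9 : ∑ i, x i ^ 9 = 0) :
    ∑ i, x i ^ 17 = 0 := by
  have two : (2 : F) = 0 := CharTwo.two_eq_zero
  have q1 : ps x 1 = 0 := by
    unfold ps
    simpa using h1
  have q3 : ps x 3 = 0 := h3
  have q5 : ps x 5 = 0 := h5
  have q9 : ps x 9 = 0 := h9
  have q0 : ps x 0 = 1 := by
    have h7 : (7 : F) = 1 := by linear_combination (3 : F) * two
    unfold ps
    simpa using h7
  have q2 : ps x 2 = 0 := by
    have := ps_two_mul x 1
    rw [q1] at this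
    simpa using this
  have q4 : ps x 4 = 0 := by
    have := ps_two_mul x 2
    rw [q2] at this
    simpa using this
  have q6 : ps x 6 = 0 := by
    have := ps_two_mul x 3
    rw [q3] at this
    simpa using this
  have q8 : ps x 8 = 0 := by
    have := ps_two_mul x 4
    rw [q4] at this
    simpa using this
  have q10 : ps x 10 = 0 := by
    have := ps_two_mul x 5
    rw [q5] at this
    simpa using this
  have q12 : ps x 12 = 0 := by
    have := ps_two_mul x 6
    rw [q6] at this
    simpa using this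
  have q16 : ps x 16 = 0 := by
    have := ps_two_mul x 8
    rw [q8] at this
    simpa using this
  set c0 := (rp x).coeff 0 with hc0
  set c1 := (rp x).coeff 1 with hc1
  set c2 := (rp x).coeff 2 with hc2
  set c3 := (rp x).coeff 3 with hc3
  set c4 := (rp x).coeff 4 with hc4
  set c5 := (rp x).coeff 5 with hc5
  set c6 := (rp x).coeff 6 with hc6
  have hc : c0 ≠ 0 := rp_coeff_zero x hx
  have r0 := ps_rec x 0
  have r1 := ps_rec x 1
  have r2 := ps_rec x 2
  have r3 := ps_rec x 3
  have r4 := ps_rec x 4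
  have r5 := ps_rec x 5
  have r6 := ps_rec x 6
  have r10 := ps_rec x 10
  simp only [Finset.sum_range_succ, Finset.sum_range_zero, zero_add, add_zero, Nat.reduceAdd,
    q0, q1, q2, q3, q4, q5, q6, q8, q9, q10, q12, q16, mul_zero, mul_one, ← hc0, ← hc1, ← hc2,
    ← hc3, ← hc4, ← hc5, ← hc6] at r0 r1 r2 r3 r4 r5 r6 r10
  have s7 : ps x 7 = -c0 := by linear_combination r0
  have hp7 : ps x 7 ≠ 0 := by
    rw [s7]
    exact neg_ne_zero.mpr hc
  have z6 : c6 = 0 := by
    have h : c6 * ps x 7 = 0 := by linear_combination r1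
    exact (mul_eq_zero.mp h).resolve_right hp7
  have z5 : c5 = 0 := by
    have h : c5 * ps x 7 = 0 := by linear_combination r2
    exact (mul_eq_zero.mp h).resolve_right hp7
  have z4 : c4 = 0 := by
    have h : c4 * ps x 7 = 0 := by linear_combination r3
    exact (mul_eq_zero.mp h).resolve_right hp7
  have s11 : ps x 11 = -(c3 * ps x 7) := by linear_combination r4
  have z2 : c2 = 0 := by
    have h : c2 * ps x 7 = 0 := by linear_combination r5 - ps x 11 * z6
    exact (mul_eq_zero.mp h).resolve_right hp7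
  have s13 : ps x 13 = -(c1 * ps x 7) := by linear_combination r6 - ps x 11 * z5
  have s17 : ps x 17 = 0 := by
    linear_combination r10 - c1 * s11 - c3 * s13 - ps x 14 * z4 - ps x 15 * z5 +
      c1 * c3 * ps x 7 * two
  exact s17

/-- No five nonzero elements have `p1 = p3 = p5 = 0`. -/
theorem p5 [CharP F 2] (x : Fin 5 → F) (hx : ∀ i, x i ≠ 0) (h1 : ∑ i, x i = 0)
    (h3 : ∑ i, x i ^ 3 = 0) (h5 : ∑ i, x i ^ 5 = 0) : False := by
  have two : (2 : F) = 0 := CharTwo.two_eq_zero
  have q1 : ps x 1 = 0 := by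
    unfold ps
    simpa using h1
  have q3 : ps x 3 = 0 := h3
  have q5 : ps x 5 = 0 := h5
  have q0 : ps x 0 = 1 := by
    have h7 : (5 : F) = 1 := by linear_combination (2 : F) * two
    unfold ps
    simpa using h7
  have q2 : ps x 2 = 0 := by
    have := ps_two_mul x 1
    rw [q1] at this
    simpa using this
  have q4 : ps x 4 = 0 := by
    have := ps_two_mul x 2
    rw [q2] at this
    simpa using this
  have hc : (rp x).coeff 0 ≠ 0 := rp_coeff_zero x hx
  have r0 := ps_rec x 0
  simp only [Finset.sum_range_succ, Finset.sum_range_zero, zero_add, q0, q1, q2, q3, q4, q5,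
    mul_zero, mul_one, add_zero] at r0
  exact hc r0

/-- No three nonzero elements have `p1 = p3 = 0`. -/
theorem p3 [CharP F 2] (x : Fin 3 → F) (hx : ∀ i, x i ≠ 0) (h1 : ∑ i, x i = 0)
    (h3 : ∑ i, x i ^ 3 = 0) : False := by
  have two : (2 : F) = 0 := CharTwo.two_eq_zero
  have q1 : ps x 1 = 0 := by
    unfold ps
    simpa using h1
  have q3 : ps x 3 = 0 := h3
  have q0 : ps x 0 = 1 := by
    have h7 : (3 : F) = 1 := by linear_combination (1 : F) * two
    unfold ps
    simpa using h7
  have q2 : ps x 2 = 0 := by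
    have := ps_two_mul x 1
    rw [q1] at this
    simpa using this
  have hc : (rp x).coeff 0 ≠ 0 := rp_coeff_zero x hx
  have r0 := ps_rec x 0
  simp only [Finset.sum_range_succ, Finset.sum_range_zero, zero_add, q0, q1, q2, q3,
    mul_zero, mul_one, add_zero] at r0
  exact hc r0

end

end Pool.Agent.G8.H10
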